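import Pool.Agent.N873.AL.Fin

/-!
# The number of the squarefree `n ≡ 3` modulo `4`
-/

set_option autoImplicit false
set_option linter.unusedVariables false

open scoped Classical

namespace Pool.Agent.N873.AK

open Finset Filter
open Pool.Agent.N873.AL (T low)

/-- periodic sets -/
theorem per {P : ℕ → Prop} {M : ℕ} (hM : 0 < M) (hP : ∀ n, P (n + M) ↔ P n) :
    ∃ δ : ℝ, ∀ X : ℕ, |(((Icc 1 X).filter P).card : ℝ) - δ * X| ≤ M := by
  set C : ℕ := ((Icc 1 M).filter P).card with hC
  have hCM : C ≤ M := by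
    have := card_filter_le (Icc 1 M) P
    rwa [Nat.card_Icc, Nat.add_sub_cancel] at this
  have hMr : (0 : ℝ) < M := by exact_mod_cast hM
  have hstep : ∀ X : ℕ, ((Icc 1 (X + M)).filter P).card = ((Icc 1 X).filter P).card + C := by
    intro X
    have h1 : Icc 1 (X + M) = Icc 1 M ∪ (Icc 1 X).image (fun n => n + M) := by
      ext n
      rw [mem_union, mem_image, mem_Icc, mem_Icc]
      constructor
      · rintro ⟨h1, h2⟩
        by_cases h3 : n ≤ M
        · exact Or.inl ⟨h1, h3⟩
        · exact Or.inr ⟨n - M, mem_Icc.2 ⟨by omega, by omega⟩, by omega⟩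
      · rintro (⟨h1, h2⟩ | ⟨m, hm, rfl⟩)
        · exact ⟨h1, by omega⟩
        · rw [mem_Icc] at hm
          exact ⟨by omega, by omega⟩
    rw [h1, filter_union, card_union_of_disjoint]
    · rw [add_comm]
      congr 1
      rw [filter_image, card_image_of_injective _ (add_left_injective M)]
      congr 1
      exact filter_congr fun n _ => hP n
    · rw [Finset.disjoint_left]
      intro n h2 h3
      rw [mem_filter, mem_Icc] at h2
      rw [mem_filter, mem_image] at h3
      obtain ⟨⟨m, hm, rfl⟩, -⟩ := h3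
      rw [mem_Icc] at hm
      omega
  refine ⟨(C : ℝ) / M, fun X => ?_⟩
  induction X using Nat.strong_induction_on with
  | _ X ih =>
    by_cases hX : X < M
    · have h1 : ((Icc 1 X).filter P).card ≤ X := by
        have := card_filter_le (Icc 1 X) P
        rwa [Nat.card_Icc, Nat.add_sub_cancel] at this
      have h1' : (((Icc 1 X).filter P).card : ℝ) ≤ M := by
        have : (X : ℝ) ≤ M := by exact_mod_cast hX.le
        exact le_trans (by exact_mod_cast h1) this
      have h2 : (C : ℝ) / M * X ≤ M := by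
        have h3 : (C : ℝ) / M ≤ 1 := by
          rw [div_le_one hMr]
          exact_mod_cast hCM
        have : (X : ℝ) ≤ M := by exact_mod_cast hX.le
        calc (C : ℝ) / M * X ≤ 1 * X := mul_le_mul_of_nonneg_right h3 (Nat.cast_nonneg X)
          _ ≤ M := by rw [one_mul]; exact this
      have h4 : (0 : ℝ) ≤ ((Icc 1 X).filter P).card := Nat.cast_nonneg _
      have h5 : (0 : ℝ) ≤ (C : ℝ) / M * X := by positivity
      rw [abs_le]
      constructor <;> linarith
    · obtain ⟨Y, rfl⟩ : ∃ Y, X = Y + M := ⟨X - M, by omega⟩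
      have h1 := ih Y (by omega)
      rw [hstep Y]
      have e : (((((Icc 1 Y).filter P).card + C : ℕ)) : ℝ) - (C : ℝ) / M * ((Y + M : ℕ) : ℝ) =
          (((Icc 1 Y).filter P).card : ℝ) - (C : ℝ) / M * Y := by
        push_cast
        field_simp
        ring
      rw [e]
      exact h1

theorem sum_sq (K X : ℕ) (hK : 0 < K) : ∑ k ∈ Ico (K + 1) (K + 1 + X), (1 : ℝ) / (k : ℝ) ^ 2 ≤
    1 / K - 1 / (K + X) := by
  have hKr : (0 : ℝ) < K := by exact_mod_cast hK
  induction X with
  | zero => simp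
  | succ X ih =>
    rw [← add_assoc, sum_Ico_succ_top (by omega)]
    have h1 : (1 : ℝ) / ((K + 1 + X : ℕ) : ℝ) ^ 2 ≤ 1 / ((K : ℝ) + X) - 1 / ((K : ℝ) + X + 1) := by
      have hn : (0 : ℝ) ≤ X := Nat.cast_nonneg X
      rw [div_sub_div _ _ (by positivity) (by positivity),
        div_le_div_iff₀ (by positivity) (by positivity)]
      push_cast
      nlinarith
    push_cast
    have e : (K : ℝ) + (X + 1) = K + X + 1 := by ring
    rw [e]
    push_cast at h1 ih
    linarith

/-- no divisor `k ^ 2`, `2 ≤ k ≤ K` -/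
def PK (K n : ℕ) : Prop := n % 4 = 3 ∧ ∀ k ∈ Icc 2 K, ¬ k ^ 2 ∣ n

theorem approx (K : ℕ) (hK : 0 < K) : ∃ δ B : ℝ, ∀ X : ℕ,
    |(((Icc 1 X).filter fun n => n ∈ T).card : ℝ) - δ * X| ≤ B + X / K := by
  obtain ⟨P, hP⟩ : ∃ P, P = PK K := ⟨_, rfl⟩
  have hM : 0 < 4 * K.factorial ^ 2 := by positivity
  obtain ⟨δ, hδ⟩ := per (P := P) hM (fun n => by
    rw [hP]
    refine and_congr (by omega) (forall_congr' fun k => forall_congr' fun hk => not_congr ?_)
    rw [mem_Icc] at hk
    have h1 : k ^ 2 ∣ 4 * K.factorial ^ 2 :=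
      Dvd.dvd.mul_left (pow_dvd_pow_of_dvd (Nat.dvd_factorial (by omega) hk.2) 2) 4
    exact (Nat.dvd_add_left h1))
  refine ⟨δ, ((4 * K.factorial ^ 2 : ℕ) : ℝ), fun X => ?_⟩
  have h1 := hδ X
  have hsub : ((Icc 1 X).filter fun n => n ∈ T) ⊆ (Icc 1 X).filter P := by
    intro n hn
    rw [mem_filter] at hn ⊢
    rw [hP]
    refine ⟨hn.1, hn.2.2, fun k hk hd => ?_⟩
    rw [mem_Icc] at hk
    have := hn.2.1 k (by rw [← pow_two]; exact hd)
    rw [Nat.isUnit_iff] at this
    omega
  have h2 : (((Icc 1 X).filter P).card : ℝ) - (((Icc 1 X).filter fun n => n ∈ T).card : ℝ) ≤ X / K := by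
    have h3 : (Icc 1 X).filter P ⊆ ((Icc 1 X).filter fun n => n ∈ T) ∪
        (Ico (K + 1) (K + 1 + X)).biUnion fun k => (Ioc 0 X).filter fun n => k ^ 2 ∣ n := by
      intro n hn
      rw [mem_filter, mem_Icc, hP] at hn
      rw [mem_union, mem_filter, mem_Icc, mem_biUnion]
      by_cases hs : Squarefree n
      · exact Or.inl ⟨hn.1, hs, hn.2.1⟩
      · right
        unfold Squarefree at hs
        push Not at hs
        obtain ⟨k, hk, hku⟩ := hs
        rw [Nat.isUnit_iff] at hku
        have hk0 : k ≠ 0 := by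
          rintro rfl
          rw [zero_mul, zero_dvd_iff] at hk
          omega
        have hkn : k * k ≤ n := Nat.le_of_dvd (by omega) hk
        have hkk : k ≤ k * k := Nat.le_mul_self k
        have hkK : K < k := by
          by_contra h
          exact hn.2.2 k (mem_Icc.2 ⟨by omega, by omega⟩) (by rw [pow_two]; exact hk)
        refine ⟨k, mem_Ico.2 ⟨by omega, by omega⟩, mem_filter.2 ⟨mem_Ioc.2 ⟨by omega, by omega⟩, ?_⟩⟩
        rw [pow_two]
        exact hk
    have h4 := (card_le_card h3).trans (card_union_le _ _)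
    have h5 : ((((Ico (K + 1) (K + 1 + X)).biUnion fun k =>
        (Ioc 0 X).filter fun n => k ^ 2 ∣ n).card : ℕ) : ℝ) ≤ X / K := by
      calc ((((Ico (K + 1) (K + 1 + X)).biUnion fun k =>
            (Ioc 0 X).filter fun n => k ^ 2 ∣ n).card : ℕ) : ℝ)
          ≤ ∑ k ∈ Ico (K + 1) (K + 1 + X), (((Ioc 0 X).filter fun n => k ^ 2 ∣ n).card : ℝ) := by
            exact_mod_cast card_biUnion_le
        _ ≤ ∑ k ∈ Ico (K + 1) (K + 1 + X), (X : ℝ) * (1 / (k : ℝ) ^ 2) := by
            refine sum_le_sum fun k hk => ?_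
            rw [Nat.Ioc_filter_dvd_card_eq_div]
            have := @Nat.cast_div_le ℝ _ _ _ X (k ^ 2)
            rw [mul_one_div]
            push_cast at this
            exact this
        _ = X * ∑ k ∈ Ico (K + 1) (K + 1 + X), (1 : ℝ) / (k : ℝ) ^ 2 := by rw [mul_sum]
        _ ≤ X * (1 / K) := by
            refine mul_le_mul_of_nonneg_left ((sum_sq K X hK).trans ?_) (Nat.cast_nonneg X)
            have : (0 : ℝ) ≤ 1 / (K + X) := by positivity
            linarith
        _ = X / K := by rw [mul_one_div]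
    have h6 : (((Icc 1 X).filter P).card : ℝ) ≤ (((Icc 1 X).filter fun n => n ∈ T).card : ℝ) +
        ((((Ico (K + 1) (K + 1 + X)).biUnion fun k =>
        (Ioc 0 X).filter fun n => k ^ 2 ∣ n).card : ℕ) : ℝ) := by exact_mod_cast h4
    linarith
  have h7 : (((Icc 1 X).filter fun n => n ∈ T).card : ℝ) ≤ (((Icc 1 X).filter P).card : ℝ) := by
    exact_mod_cast card_le_card hsub
  have h8 : (0 : ℝ) ≤ (X : ℝ) / K := by positivity
  rw [abs_le] at h1 ⊢
  constructor <;> linarith [h1.1, h1.2]

/-- the density of the squarefree `n ≡ 3` modulo `4` -/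
theorem dens : ∃ c : ℝ, 0 < c ∧
    Tendsto (fun X : ℕ => (((Icc 1 X).filter fun n => n ∈ T).card : ℝ) / X) atTop (nhds c) := by
  have hcau : CauchySeq fun X : ℕ => (((Icc 1 X).filter fun n => n ∈ T).card : ℝ) / X := by
    rw [Metric.cauchySeq_iff']
    intro ε hε
    obtain ⟨K, hK⟩ := exists_nat_gt (4 / ε)
    have hK0 : 0 < K := by
      have : (0 : ℝ) < K := lt_trans (by positivity) hK
      exact_mod_cast this
    have hKr : (0 : ℝ) < K := by exact_mod_cast hK0
    obtain ⟨δ, B, h⟩ := approx K hK0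
    obtain ⟨N, hN⟩ := exists_nat_gt (4 * |B| / ε)
    have hK2 : 1 / (K : ℝ) < ε / 4 := by
      rw [div_lt_iff₀ hε] at hK
      rw [div_lt_div_iff₀ hKr (by norm_num)]
      linarith
    have key : ∀ X : ℕ, N + 1 ≤ X →
        |(((Icc 1 X).filter fun n => n ∈ T).card : ℝ) / X - δ| < ε / 2 := by
      intro X hX
      have hX0 : (0 : ℝ) < X := by
        have : 0 < X := by omega
        exact_mod_cast this
      have hNX : (N : ℝ) < X := by
        have : N < X := by omega
        exact_mod_cast this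
      have h1 := h X
      have e : (((Icc 1 X).filter fun n => n ∈ T).card : ℝ) / X - δ =
          ((((Icc 1 X).filter fun n => n ∈ T).card : ℝ) - δ * X) / X := by
        field_simp
      rw [e, abs_div, abs_of_pos hX0, div_lt_iff₀ hX0]
      have h2 : B ≤ |B| := le_abs_self B
      have h3 : 4 * |B| < ε * X := by
        rw [div_lt_iff₀ hε] at hN
        nlinarith
      have h4 : (X : ℝ) / K < ε / 4 * X := by
        rw [div_eq_mul_one_div, mul_comm]
        exact mul_lt_mul_of_pos_right hK2 hX0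
      nlinarith
    refine ⟨N + 1, fun X hX => ?_⟩
    rw [Real.dist_eq]
    have h1 := key X hX
    have h2 := key (N + 1) le_rfl
    rw [abs_lt] at h1 h2 ⊢
    constructor <;> linarith [h1.1, h1.2, h2.1, h2.2]
  obtain ⟨c, hc⟩ := cauchySeq_tendsto_of_complete hcau
  refine ⟨c, ?_, hc⟩
  obtain ⟨δ, hδ, X₁, h⟩ := low
  refine lt_of_lt_of_le hδ (ge_of_tendsto hc ?_)
  filter_upwards [eventually_ge_atTop (max X₁ 1)] with X hX
  have hX0 : (0 : ℝ) < X := by
    have : 0 < X := lt_of_lt_of_le one_pos ((le_max_right X₁ 1).trans hX)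
    exact_mod_cast this
  rw [le_div_iff₀ hX0]
  exact h X ((le_max_left _ _).trans hX)

/-- the dilated intervals -/
theorem dil (d : ℕ) (hd : 0 < d) (ε : ℝ) (hε : 0 < ε) : ∀ᶠ X : ℕ in atTop,
    (((Icc 1 (X * d)).filter fun n => n ∈ T).card : ℝ) ≤
      (d + ε) * (((Icc 1 X).filter fun n => n ∈ T).card : ℝ) := by
  obtain ⟨c, hc, h⟩ := dens
  have hdr : (0 : ℝ) < d := by exact_mod_cast hd
  have h1 : Tendsto (fun X : ℕ => (((Icc 1 (X * d)).filter fun n => n ∈ T).card : ℝ) / ((X * d : ℕ) : ℝ))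
      atTop (nhds c) := h.comp (tendsto_id.atTop_mul_const' hd)
  have h2 : Tendsto (fun X : ℕ => (((Icc 1 (X * d)).filter fun n => n ∈ T).card : ℝ) /
      ((X * d : ℕ) : ℝ) * d / ((((Icc 1 X).filter fun n => n ∈ T).card : ℝ) / X))
      atTop (nhds (c * d / c)) := (h1.mul_const (d : ℝ)).div h hc.ne'
  have e : c * d / c = d := by field_simp
  rw [e] at h2
  have h3 := h2.eventually (gt_mem_nhds (show (d : ℝ) < d + ε by linarith))
  have h4 := h.eventually (lt_mem_nhds hc)
  filter_upwards [h3, h4, eventually_ge_atTop 1] with X h5 h6 hX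
  have hX0 : (0 : ℝ) < X := by exact_mod_cast hX
  have h7 : (0 : ℝ) < (((Icc 1 X).filter fun n => n ∈ T).card : ℝ) := by
    by_contra h8
    have h9 : (((Icc 1 X).filter fun n => n ∈ T).card : ℝ) = 0 :=
      le_antisymm (not_lt.1 h8) (Nat.cast_nonneg _)
    rw [h9, zero_div] at h6
    exact lt_irrefl _ h6
  have e2 : (((Icc 1 (X * d)).filter fun n => n ∈ T).card : ℝ) /
      ((X * d : ℕ) : ℝ) * d / ((((Icc 1 X).filter fun n => n ∈ T).card : ℝ) / X) =
      (((Icc 1 (X * d)).filter fun n => n ∈ T).card : ℝ) / (((Icc 1 X).filter fun n => n ∈ T).card : ℝ) := by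
    push_cast
    field_simp
  rw [e2, div_lt_iff₀ h7] at h5
  exact h5.le

end Pool.Agent.N873.AK
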