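import Pool.Agent.N873.AK.Fld
import Pool.Agent.N873.AK.Cnt
import Pool.Agent.N873.AL.Parts
import Pool.Agent.N873.MF.GL

/-!
# Ranks over multiquadratic fields of all the twists
-/

set_option autoImplicit false
set_option linter.unusedVariables false

open scoped Classical

namespace Pool.Agent.N873.AK

open Finset NumberField Filter
open Pool.Agent.N856.JL (sfp sfp_spec sfp_sqf sfp_dvd)
open Pool.Agent.N856.JL.All (sfp_inj_mul)
open Pool.Agent.N873.UT (EQ Em r4 gs gs_iff exK parts2)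
open Pool.Agent.N873.MF (cA cB EK)
open Pool.Agent.N873.AL (Pr T bad bound parts tail)

/-- the class of the squarefree part -/
theorem sfp_T {n d : ℕ} (hn : n ∈ T) (hd : d % 4 = 1) : sfp (n * d) ∈ T ∧ sfp (n * d) ≤ n * d := by
  have hn0 : 0 < n := Nat.pos_of_ne_zero hn.1.ne_zero
  have hd0 : 0 < d := by omega
  have hpos : 0 < n * d := Nat.mul_pos hn0 hd0
  obtain ⟨s, h1, h2, h3, -⟩ := sfp_spec hpos
  refine ⟨⟨sfp_sqf _, Pool.Agent.N873.MF.GLx.mod_four (t := s) ?_⟩, Nat.le_of_dvd hpos (sfp_dvd hpos)⟩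
  rw [h2, Nat.mul_mod, hn.2, hd]

theorem prod_mod {r : ℕ} {d : Fin r → ℕ} (hd : ∀ i, d i % 4 = 1) (S : Finset (Fin r)) :
    (∏ i ∈ S, d i) % 4 = 1 := by
  induction S using Finset.induction_on with
  | empty => simp
  | insert i S hi ih => rw [prod_insert hi, Nat.mul_mod, hd, ih]

/-- the rank over `ℚ`, in terms of the 4-rank -/
theorem rank_Q {F : Finset (ℤ × ℤ)} (hF : ∀ c ∈ F, Pr c) {c : ℤ × ℤ} (hc : c ∈ F) {m : ℕ} (hm : m ∈ T)
    {R : ℕ} (hR : gs m = 2 ^ (R + 1)) :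
    Module.finrank ℤ (EQ m c.1 c.2).toAffine.Point ≤ 2 * (R + (bad F).card + 1) := by
  obtain ⟨K, i1, i2, h2, hs⟩ := exK m hm.1.ne_zero
  obtain ⟨h5, h6⟩ := bound parts hF hc hm.1 hm.2 K h2 hs
  have e1 := gs_iff parts2 hm.1 hm.2 K h2 hs
  rw [hR, pow_succ, mul_comm] at e1
  have hr : r4 K = 2 ^ R := (Nat.eq_of_mul_eq_mul_left (by norm_num) e1).symm
  have e : (2 ^ ((bad F).card + 1) * r4 K) ^ 2 = 2 ^ (2 * (R + (bad F).card + 1)) := by
    rw [hr, ← pow_add, ← pow_mul]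
    congr 1
    ring
  rw [e] at h6
  have h7 : 0 < Nat.card {x : Pool.Agent.TH841.SH.D.Sha (EQ m c.1 c.2) // x + x = 0} := by
    have : Nonempty {x : Pool.Agent.TH841.SH.D.Sha (EQ m c.1 c.2) // x + x = 0} := ⟨⟨0, add_zero 0⟩⟩
    exact Nat.card_pos
  exact (Nat.pow_le_pow_iff_right (by norm_num)).1 ((Nat.le_mul_of_pos_right _ h7).trans h6)

/-- the rank over the field, in terms of the 4-ranks -/
theorem rank_K {F : Finset (ℤ × ℤ)} (hF : ∀ c ∈ F, Pr c) {c : ℤ × ℤ} (hc : c ∈ F) {r : ℕ}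
    {d : Fin r → ℕ} (hd : ∀ i, d i % 4 = 1) (K : Type) [Field K] [NumberField K] (x : Fin r → K)
    (hx : ∀ i, x i ^ 2 = (d i : K)) (hK : IntermediateField.adjoin ℚ (Set.range x) = ⊤) {n : ℕ}
    (hn : n ∈ T) (R : Finset (Fin r) → ℕ) (hR : ∀ S, gs (sfp (n * ∏ i ∈ S, d i)) = 2 ^ (R S + 1)) :
    Module.finrank ℤ (EK K n c).toAffine.Point ≤ ∑ S, 2 * (R S + (bad F).card + 1) := by
  refine (rank_field c (hF c hc) n r d (Nat.pos_of_ne_zero hn.1.ne_zero)
    (fun i => by have := hd i; omega) K x hx hK).trans ?_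
  exact sum_le_sum fun S _ => rank_Q hF hc (sfp_T hn (prod_mod hd S)).1 (hR S)

/-- **The tail over the field.** -/
theorem tail_K {F : Finset (ℤ × ℤ)} (hF : ∀ c ∈ F, Pr c) {r : ℕ}
    {d : Fin r → ℕ} (hd : ∀ i, d i % 4 = 1) (K : Type) [Field K] [NumberField K] (x : Fin r → K)
    (hx : ∀ i, x i ^ 2 = (d i : K)) (hK : IntermediateField.adjoin ℚ (Set.range x) = ⊤) (ρ : ℕ)
    (ε : ℝ) (hε : 0 < ε) : ∀ᶠ X : ℕ in atTop,
      (((Icc 1 X).filter fun n => n ∈ T ∧ ∃ c ∈ F, 2 ^ r * (2 * (ρ + (bad F).card + 1)) <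
        Module.finrank ℤ (EK K n c).toAffine.Point).card : ℝ) ≤
      ((∏ i, (1 + (d i : ℝ))) * (4 * (1 / 2 : ℝ) ^ (ρ + 1) ^ 2) + ε) *
        (((Icc 1 X).filter fun n => n ∈ T).card : ℝ) := by
  set δ : ℝ := 4 * (1 / 2 : ℝ) ^ (ρ + 1) ^ 2 with hδ
  have hδ0 : 0 < δ := by positivity
  obtain ⟨V, hV⟩ : ∃ V : Set ℕ, ∀ m, m ∈ V ↔ ∀ R ≤ ρ, gs m ≠ 2 ^ (R + 1) :=
    ⟨{m | ∀ R ≤ ρ, gs m ≠ 2 ^ (R + 1)}, fun m => Iff.rfl⟩
  -- the constants
  set D : ℝ := ∏ i, (1 + (d i : ℝ)) with hD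
  have hDsum : D = ∑ S : Finset (Fin r), ((∏ i ∈ S, d i : ℕ) : ℝ) := by
    rw [hD, Finset.prod_one_add]
    rw [Finset.powerset_univ]
    exact sum_congr rfl fun S _ => by push_cast; rfl
  have hD0 : 0 < D := prod_pos fun i _ => by positivity
  obtain ⟨η, hη, hη1⟩ : ∃ η : ℝ, 0 < η ∧ (δ + η) * (D + 2 ^ r * η) ≤ D * δ + ε := by
    refine ⟨min 1 (ε / (D + 2 ^ r * (δ + 1))), lt_min one_pos (by positivity), ?_⟩
    set η : ℝ := min 1 (ε / (D + 2 ^ r * (δ + 1))) with hη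
    have h1 : η ≤ 1 := min_le_left _ _
    have h2 : η ≤ ε / (D + 2 ^ r * (δ + 1)) := min_le_right _ _
    have h3 : 0 < η := lt_min one_pos (by positivity)
    rw [le_div_iff₀ (by positivity)] at h2
    have h4 : (0 : ℝ) < 2 ^ r := by positivity
    have h5 : η * η ≤ η := by nlinarith
    have h6 : (2 : ℝ) ^ r * (η * η) ≤ 2 ^ r * η := mul_le_mul_of_nonneg_left h5 h4.le
    nlinarith
  have ht := tail ρ V (fun n _ R hR h h' => (hV n).1 h' R hR h) η hη
  have hev : ∀ S : Finset (Fin r), ∀ᶠ X : ℕ in atTop,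
      (((Icc 1 (X * ∏ i ∈ S, d i)).filter fun n => n ∈ T ∧ n ∈ V).card : ℝ) ≤
        (δ + η) * ((((∏ i ∈ S, d i : ℕ) : ℝ) + η) * (((Icc 1 X).filter fun n => n ∈ T).card : ℝ)) := by
    intro S
    have hp : 0 < ∏ i ∈ S, d i := by
      have := prod_mod hd S
      omega
    have h1 := (tendsto_id.atTop_mul_const' hp).eventually ht
    filter_upwards [h1, dil _ hp η hη] with X h2 h3
    simp only [id] at h2
    refine h2.trans ?_
    exact mul_le_mul_of_nonneg_left h3 (by positivity)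
  have hall := (eventually_all_finset (univ : Finset (Finset (Fin r)))).2 fun S _ => hev S
  filter_upwards [hall] with X hX
  have hsub : ((Icc 1 X).filter fun n => n ∈ T ∧ ∃ c ∈ F, 2 ^ r * (2 * (ρ + (bad F).card + 1)) <
        Module.finrank ℤ (EK K n c).toAffine.Point) ⊆
      (univ : Finset (Finset (Fin r))).biUnion fun S =>
        (Icc 1 X).filter fun n => n ∈ T ∧ sfp (n * ∏ i ∈ S, d i) ∈ V := by
    intro n hn
    rw [mem_filter] at hn
    obtain ⟨h1, h2, c, hc, h3⟩ := hn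
    rw [mem_biUnion]
    by_contra hcon
    push Not at hcon
    have h4 : ∀ S : Finset (Fin r), ∃ R ≤ ρ, gs (sfp (n * ∏ i ∈ S, d i)) = 2 ^ (R + 1) := by
      intro S
      by_contra h5
      push Not at h5
      exact hcon S (mem_univ S) (mem_filter.2 ⟨h1, h2, (hV _).2 h5⟩)
    choose R hR1 hR2 using h4
    have h5 := rank_K hF hc hd K x hx hK h2 R hR2
    have h6 : ∑ S : Finset (Fin r), 2 * (R S + (bad F).card + 1) ≤
        2 ^ r * (2 * (ρ + (bad F).card + 1)) := by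
      calc ∑ S : Finset (Fin r), 2 * (R S + (bad F).card + 1)
          ≤ ∑ S : Finset (Fin r), 2 * (ρ + (bad F).card + 1) :=
            sum_le_sum fun S _ => by have := hR1 S; omega
        _ = 2 ^ r * (2 * (ρ + (bad F).card + 1)) := by
            rw [sum_const, card_univ, Fintype.card_finset, Fintype.card_fin, smul_eq_mul]
    omega
  have hinj : ∀ S : Finset (Fin r), ((Icc 1 X).filter fun n => n ∈ T ∧ sfp (n * ∏ i ∈ S, d i) ∈ V).card ≤
      ((Icc 1 (X * ∏ i ∈ S, d i)).filter fun n => n ∈ T ∧ n ∈ V).card := by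
    intro S
    have hp : 0 < ∏ i ∈ S, d i := by
      have := prod_mod hd S
      omega
    refine card_le_card_of_injOn (fun n => sfp (n * ∏ i ∈ S, d i)) ?_ ?_
    · intro n hn
      obtain ⟨h1, h2, h3⟩ := mem_filter.1 (mem_coe.1 hn)
      rw [mem_Icc] at h1
      obtain ⟨h4, h5⟩ := sfp_T h2 (prod_mod hd S)
      refine mem_coe.2 (mem_filter.2 ⟨mem_Icc.2 ⟨Nat.pos_of_ne_zero h4.1.ne_zero, ?_⟩, h4, h3⟩)
      exact h5.trans (Nat.mul_le_mul_right _ h1.2)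
    · intro n hn m hm h
      obtain ⟨-, h2, -⟩ := mem_filter.1 (mem_coe.1 hn)
      obtain ⟨-, h3, -⟩ := mem_filter.1 (mem_coe.1 hm)
      exact sfp_inj_mul h2.1 h3.1 hp h
  set B : ℝ := (((Icc 1 X).filter fun n => n ∈ T).card : ℝ) with hB
  have hB0 : 0 ≤ B := Nat.cast_nonneg _
  calc (((Icc 1 X).filter fun n => n ∈ T ∧ ∃ c ∈ F, 2 ^ r * (2 * (ρ + (bad F).card + 1)) <
        Module.finrank ℤ (EK K n c).toAffine.Point).card : ℝ)
      ≤ ∑ S : Finset (Fin r), (((Icc 1 (X * ∏ i ∈ S, d i)).filter fun n => n ∈ T ∧ n ∈ V).card : ℝ) := by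
        have h1 := (card_le_card hsub).trans (card_biUnion_le.trans (sum_le_sum fun S _ => hinj S))
        exact_mod_cast h1
    _ ≤ ∑ S : Finset (Fin r), (δ + η) * ((((∏ i ∈ S, d i : ℕ) : ℝ) + η) * B) :=
        sum_le_sum fun S hS => hX S hS
    _ = (δ + η) * (D + 2 ^ r * η) * B := by
        rw [← mul_sum, ← sum_mul, sum_add_distrib, ← hDsum, sum_const, card_univ,
          Fintype.card_finset, Fintype.card_fin, nsmul_eq_mul]
        push_cast
        ring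
    _ ≤ (D * δ + ε) * B := mul_le_mul_of_nonneg_right hη1 hB0

end Pool.Agent.N873.AK
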