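import Pool.Agent.N873.MF.FLD
import Pool.Agent.N873.AL.Fin

/-!
# The ranks of the curves over the multiquadratic fields, all pairs
-/

set_option autoImplicit false
set_option linter.unusedVariables false

open scoped Classical

namespace Pool.Agent.N873.AK

open Finset NumberField Filter
open Pool.Agent.N856.JL (sfp)
open Pool.Agent.N873.UT (EQ Em)
open Pool.Agent.N873.MF (cA cB EK)
open Pool.Agent.N873.MF.FLD (nat_sfp disc_eq vr)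
open Pool.Agent.N873.AL (Pr)

open WeierstrassCurve

lemma disc_ne {n : ℤ} {c : ℤ × ℤ} (hc : Pr c) (hn : n ≠ 0) : 4 * cA n c ^ 3 + 27 * cB n c ^ 2 ≠ 0 := by
  rw [disc_eq]
  obtain ⟨h1, h2, h3⟩ := hc
  exact neg_ne_zero.2 (mul_ne_zero (mul_ne_zero (mul_ne_zero (mul_ne_zero (by norm_num)
    (pow_ne_zero _ hn)) (pow_ne_zero _ h1)) (pow_ne_zero _ h2)) (pow_ne_zero _ (sub_ne_zero.2 h3)))

lemma EQ_Δ {m : ℤ} {c : ℤ × ℤ} (hc : Pr c) (hm : m ≠ 0) : (EQ m c.1 c.2).Δ ≠ 0 := by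
  have e : (EQ m c.1 c.2).Δ =
      ((16 * m ^ 6 * c.1 ^ 4 * c.2 ^ 4 * (c.1 ^ 2 - c.2 ^ 2) ^ 2 : ℤ) : ℚ) := by
    rw [map_Δ]
    simp only [Em, WeierstrassCurve.Δ, WeierstrassCurve.b₂, WeierstrassCurve.b₄,
      WeierstrassCurve.b₆, WeierstrassCurve.b₈, eq_intCast]
    push_cast
    ring
  rw [e]
  obtain ⟨h1, h2, h3⟩ := hc
  have : (16 * m ^ 6 * c.1 ^ 4 * c.2 ^ 4 * (c.1 ^ 2 - c.2 ^ 2) ^ 2 : ℤ) ≠ 0 :=
    mul_ne_zero (mul_ne_zero (mul_ne_zero (mul_ne_zero (by norm_num)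
    (pow_ne_zero _ hm)) (pow_ne_zero _ h1)) (pow_ne_zero _ h2)) (pow_ne_zero _ (sub_ne_zero.2 h3))
  exact_mod_cast this

/-- the rank over the field -/
theorem rank_field (c : ℤ × ℤ) (hc : Pr c) (n r : ℕ) (d : Fin r → ℕ) (hn : 0 < n) (hd : ∀ i, 0 < d i)
    (K : Type) [Field K] [NumberField K] (x : Fin r → K) (hx : ∀ i, x i ^ 2 = (d i : K))
    (hK : IntermediateField.adjoin ℚ (Set.range x) = ⊤) :
    Module.finrank ℤ (EK K n c).toAffine.Point ≤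
      ∑ T : Finset (Fin r), Module.finrank ℤ (EQ (sfp (n * ∏ i ∈ T, d i)) c.1 c.2).toAffine.Point := by
  have hn0 : (n : ℤ) ≠ 0 := by exact_mod_cast hn.ne'
  have hdisc := disc_ne hc hn0
  obtain ⟨d', hd'⟩ : ∃ d' : Fin r → ℤ, ∀ i, d' i = (d i : ℤ) := ⟨fun i => (d i : ℤ), fun _ => rfl⟩
  have hd0 : ∀ i, d' i ≠ 0 := fun i => by
    rw [hd']
    exact_mod_cast (hd i).ne'
  have hx' : ∀ i, x i ^ 2 = (d' i : K) := fun i => by
    rw [hx, hd']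
    simp
  have hprod : ∀ T : Finset (Fin r), ∏ i ∈ T, d' i = ((∏ i ∈ T, d i : ℕ) : ℤ) := fun T => by
    push_cast
    exact prod_congr rfl fun i _ => hd' i
  have key : ∀ T : Finset (Fin r), ∃ s : ℤ, s ≠ 0 ∧ ((sfp (n * ∏ i ∈ T, d i) : ℕ) : ℤ) ≠ 0 ∧
      (n : ℤ) * ∏ i ∈ T, d' i = ((sfp (n * ∏ i ∈ T, d i) : ℕ) : ℤ) * s ^ 2 := by
    intro T
    have hpos : 0 < n * ∏ i ∈ T, d i := Nat.mul_pos hn (Finset.prod_pos fun i _ => hd i)
    obtain ⟨s, h1, h2, h3⟩ := nat_sfp hpos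
    refine ⟨s, by exact_mod_cast h1.ne', by exact_mod_cast h3.ne', ?_⟩
    rw [hprod]
    exact_mod_cast h2.symm
  have hfgK := Pool.Agent.Y687.MQ.fg_gen K hdisc
  have hrk := Pool.Agent.Y687.MQ.rank_gen K d' x hx' hK hd0 hdisc hfgK
  have heq : ∀ T : Finset (Fin r), Module.finrank ℤ (Pool.Agent.Y19.QT.EQ
      (cA n c * (∏ i ∈ T, d' i) ^ 2) (cB n c * (∏ i ∈ T, d' i) ^ 3)) =
      Module.finrank ℤ (EQ (sfp (n * ∏ i ∈ T, d i)) c.1 c.2).toAffine.Point := by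
    intro T
    obtain ⟨s, hs, hm, h⟩ := key T
    have e := (vr c hs h).equiv (EQ_Δ hc hm)
    exact (LinearEquiv.finrank_eq e.toIntLinearEquiv).symm
  rw [← Finset.sum_congr rfl fun T _ => heq T]
  unfold Pool.Agent.Y19.QT.rkK at hrk
  change Module.finrank ℤ (Pool.Agent.Y19.QT.EK K (cA n c) (cB n c)) ≤ _
  convert hrk

end Pool.Agent.N873.AK
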